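import Pool.Agent.Lib.MP_1ad17e_al_h4.Strong
import Pool.Agent.Lib.MP_1ad17e_al_E.Main
import Pool.Agent.Lib.MP_1ad17e_al_E.Sharp
import Pool.Agent.Lib.MP_1ad17e_al_h39.RowB3

/-!
# MP_1ad17e_al: the largest exponent of a Sylow 2-subgroup of class `n` is `2 ^ n`

Let `T` be a Sylow 2-subgroup of a finite group `G`, of class at most `n`. If no nontrivial abelian
subgroup of `T` is strongly closed in `T` with respect to `G`, then the exponent of `T` divides
`2 ^ n`. For every `n ≥ 2` the value `2 ^ n` is attained, by a finite simple group. With Goldschmidt's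
theorem on strongly closed abelian 2-subgroups this gives `e(n) = 2 ^ n` for all `n ≥ 2`.

The first statement follows from one on all finite groups: the subgroup `W` of `T` generated by all `y`
in `T` with `y ^ 2 = 1` which are `2 ^ n`-th powers of elements of `G` is elementary abelian, commutes
with all involutions of `T`, and is strongly closed in `T` with respect to `G`.
-/

set_option autoImplicit false

namespace Pool.Agent.Results.MP_1ad17e_al.ExponentExact

open E1adH4

/-- The exponents of the non-abelian Sylow 2-subgroups, of nilpotency class exactly `n`, of the finite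
simple groups. (The number `e(n)` of the problem is the greatest element of this set.) -/
def simpleExponents (n : ℕ) : Set ℕ :=
  {m | ∃ (G : Type) (_ : Group G) (_ : Finite G) (T : Sylow 2 G), IsSimpleGroup G ∧
    (∃ x ∈ T, ∃ y ∈ T, x * y ≠ y * x) ∧ Group.nilpotencyClass (T : Subgroup G) = n ∧
    Monoid.exponent (T : Subgroup G) = m}

/-- What is used of Goldschmidt's theorem (1974): if a Sylow 2-subgroup `T` of a finite simple group
`G` has a nontrivial abelian subgroup which is strongly closed in `T` with respect to `G`, then `T` is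
abelian or `x ^ 4 = 1` for all `x` in `T`. -/
def Goldschmidt : Prop :=
  ∀ (G : Type) (_ : Group G) (_ : Finite G) (T : Sylow 2 G), IsSimpleGroup G →
    ∀ A : Subgroup G, StronglyClosed (T : Subgroup G) A → (∀ x ∈ A, ∀ y ∈ A, x * y = y * x) →
      A ≠ ⊥ → (∀ x ∈ T, ∀ y ∈ T, x * y = y * x) ∨ ∀ x ∈ T, x ^ 4 = 1

theorem result :
    (∀ (G : Type*) [Group G] [Finite G] (T : Sylow 2 G) (n : ℕ),
      Group.nilpotencyClass (T : Subgroup G) ≤ n →
      (∀ A : Subgroup G, StronglyClosed (T : Subgroup G) A → (∀ x ∈ A, ∀ y ∈ A, x * y = y * x) →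
        A = ⊥) →
      Monoid.exponent (T : Subgroup G) ∣ 2 ^ n) ∧
    (∀ n : ℕ, 2 ≤ n → ∃ (G : Type) (_ : Group G) (_ : Finite G) (T : Sylow 2 G),
      IsSimpleGroup G ∧ Group.nilpotencyClass (T : Subgroup G) = n ∧
      Monoid.exponent (T : Subgroup G) = 2 ^ n ∧
      ∀ A : Subgroup G, StronglyClosed (T : Subgroup G) A →
        (∀ x ∈ A, ∀ y ∈ A, x * y = y * x) → A = ⊥) ∧
    (Goldschmidt → ∀ n : ℕ, 2 ≤ n → IsGreatest (simpleExponents n) (2 ^ n)) ∧
    (∀ (G : Type*) [Group G] [Finite G] (T : Sylow 2 G) (n : ℕ),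
      Group.nilpotencyClass (T : Subgroup G) ≤ n →
      StronglyClosed (T : Subgroup G) (rootInv (T : Subgroup G) n) ∧
      ∀ z ∈ rootInv (T : Subgroup G) n, z ^ 2 = 1 ∧
        ∀ b ∈ (T : Subgroup G), b ^ 2 = 1 → z * b = b * z) := by
  refine ⟨fun G _ _ T n hT h => ?_, fun n hn => E1adE.sharp hn, fun hGS n hn => ⟨?_, ?_⟩,
    fun G _ _ T n hT => ?_⟩
  · exact exponent_dvd (E1adE.good E1adH39.LL T hT) T h
  · obtain ⟨G, i1, i2, T, hS, hc, he, hA⟩ := E1adE.sharp hn
    refine ⟨G, i1, i2, T, hS, ?_, hc, he⟩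
    by_contra hcon
    push Not at hcon
    have hT : (T : Subgroup G) = ⊥ := by
      refine hA (T : Subgroup G) ⟨le_refl _, fun a _ g h => h⟩ hcon
    have h1 : ∀ x : (T : Subgroup G), x ^ 1 = 1 := by
      intro x
      have hx : (x : G) ∈ (⊥ : Subgroup G) := by
        rw [← hT]
        exact x.2
      rw [pow_one]
      exact Subtype.ext (Subgroup.mem_bot.1 hx)
    have h2 := Monoid.exponent_dvd_of_forall_pow_eq_one h1
    rw [he] at h2
    have h3 := Nat.le_of_dvd (by norm_num) h2
    have h4 : 2 ^ 1 < 2 ^ n := Nat.pow_lt_pow_right (by norm_num) (by omega)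
    omega
  · rintro m ⟨G, i1, i2, T, hS, ⟨x, hx, y, hy, hxy⟩, hc, rfl⟩
    refine Nat.le_of_dvd (by positivity) ?_
    by_cases hA : ∀ A : Subgroup G, StronglyClosed (T : Subgroup G) A →
        (∀ x ∈ A, ∀ y ∈ A, x * y = y * x) → A = ⊥
    · exact exponent_dvd (E1adE.good E1adH39.LL T hc.le) T hA
    · push Not at hA
      obtain ⟨A, hA1, hA2, hA3⟩ := hA
      rcases hGS G i1 i2 T hS A hA1 hA2 hA3 with h | h
      · exact absurd (h x hx y hy) hxy
      · refine dvd_trans (Monoid.exponent_dvd_of_forall_pow_eq_one (n := 4) fun z => ?_) ?_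
        · exact Subtype.ext (h z z.2)
        · exact pow_dvd_pow 2 hn
  · have hG : Good G n := E1adE.good E1adH39.LL T hT
    refine ⟨rootInv_stronglyClosed hG T, fun z hz => ⟨?_, fun b hb hb2 => ?_⟩⟩
    · rw [pow_two]
      exact rootInv_sq hG T hz
    · exact rootInv_commute hG T hb (by rw [← pow_two, hb2]) hz

end Pool.Agent.Results.MP_1ad17e_al.ExponentExact
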