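import Pool.Agent.Lib.MP_1ad17e_al_helper12.Fin

/-!
# MP_1ad17e_al: fusion of high powers

Let `T` be a Sylow 2-subgroup of a finite group `G`, of class at most `n`, `M = 5 n + 3 ⌊log₂ n⌋`
and `E` the subgroup generated by the `2 ^ M`-th powers of the elements of `T`. Then `N_G(T)`
controls the fusion in `T` of the elements of `E`, and `E` is strongly closed in `T` with respect
to `G`.
-/

namespace Pool.Agent.Results.MP_1ad17e_al.LinearExponent

open E1ad

theorem result {G : Type*} [Group G] [Finite G] (T : Sylow 2 G) (n : ℕ) (hn : 1 ≤ n)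
    (hT : Group.nilpotencyClass (T : Subgroup G) ≤ n) :
    (∀ R : Subgroup G, R ≤ T → ∀ g : G, (∀ r ∈ R, g * r * g⁻¹ ∈ T) →
      ∃ h ∈ Subgroup.normalizer ((T : Subgroup G) : Set G), ∀ z ∈ R,
        z ∈ powSub (T : Subgroup G) (5 * n + 3 * Nat.log 2 n) → g * z * g⁻¹ = h * z * h⁻¹) ∧
    StronglyClosed (T : Subgroup G) (powSub (T : Subgroup G) (5 * n + 3 * Nat.log 2 n)) := by
  obtain ⟨h1, h2, -⟩ := main T n hn hT
  exact ⟨fun R hR g hg => h1 R hR g hg, h2⟩

end Pool.Agent.Results.MP_1ad17e_al.LinearExponent
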